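import Mathlib

set_option autoImplicit false

/-! Basic facts about the complex space l1 over the index set of pairs of natural numbers. -/

namespace Pool.Agent.V1190.PA

open scoped BigOperators
open Filter Topology

/-- indices: level and position -/
abbrev I := ℕ × ℕ

/-- the space of absolutely summable families -/
noncomputable abbrev X := lp (fun _ : I => ℂ) 1

/-- unit vectors -/
noncomputable def b (p : I) : X := lp.single 1 p (1 : ℂ)

lemma b_apply (p q : I) : (b p : X) q = if q = p then 1 else 0 := by
  unfold b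
  rw [lp.single_apply]
  by_cases h : q = p
  · subst h; simp
  · simp [h]

lemma b_self (p : I) : (b p : X) p = 1 := by simp [b_apply]

lemma norm_b (p : I) : ‖b p‖ = 1 := by
  unfold b
  rw [lp.norm_single (by norm_num)]
  simp

lemma summ (f : X) : Summable (fun p => ‖f p‖) := by
  have := (lp.memℓp f)
  have h2 := this.summable (by norm_num)
  simpa using h2

lemma nrm (f : X) : ‖f‖ = ∑' p, ‖f p‖ := by
  have := lp.norm_eq_tsum_rpow (p := 1) (by norm_num) f
  simpa using this

lemma hasSum_b (f : X) : HasSum (fun p => f p • b p) f := by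
  have := lp.hasSum_single (p := 1) (by norm_num) f
  convert this using 2 with p
  unfold b
  ext q
  simp [lp.single_apply, Pi.single_apply]

lemma coord_le (f : X) (p : I) : ‖f p‖ ≤ ‖f‖ := by
  rw [nrm]
  exact (summ f).le_tsum p (fun _ _ => norm_nonneg _)

/-- coordinate functional -/
noncomputable def coord (q : I) : X →L[ℂ] ℂ :=
  LinearMap.mkContinuous
    { toFun := fun f => f q
      map_add' := fun f g => by simp
      map_smul' := fun c f => by simp } 1 (fun f => by rw [one_mul]; exact coord_le f q)

lemma coord_apply (q : I) (f : X) : coord q f = f q := rfl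

/-- every operator is determined by its columns -/
lemma clm_hasSum {Y : Type*} [NormedAddCommGroup Y] [NormedSpace ℂ Y] (A : X →L[ℂ] Y) (f : X) :
    HasSum (fun p => f p • A (b p)) (A f) := by
  have := (hasSum_b f).mapL A
  simpa using this

lemma clm_coord (A : X →L[ℂ] X) (f : X) (q : I) :
    HasSum (fun p => f p * A (b p) q) (A f q) := by
  have := clm_hasSum ((coord q).comp A) f
  simpa [coord_apply] using this

/-- the operator with given bounded columns -/
lemma mk_summable (c : I → X) (C : ℝ) (hc : ∀ p, ‖c p‖ ≤ C) (f : X) :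
    Summable (fun p => f p • c p) := by
  apply Summable.of_norm
  refine Summable.of_nonneg_of_le (fun _ => norm_nonneg _) (fun p => ?_) ((summ f).mul_right C)
  rw [norm_smul]
  exact mul_le_mul_of_nonneg_left (hc p) (norm_nonneg _)

noncomputable def mk (c : I → X) (C : ℝ) (hc : ∀ p, ‖c p‖ ≤ C) : X →L[ℂ] X :=
  LinearMap.mkContinuous
    { toFun := fun f => ∑' p, f p • c p
      map_add' := fun f g => by
        rw [← (mk_summable c C hc f).tsum_add (mk_summable c C hc g)]
        congr 1; ext1 p
        simp [add_smul]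
      map_smul' := fun z f => by
        simp only [RingHom.id_apply]
        rw [← (mk_summable c C hc f).tsum_const_smul z]
        congr 1; ext1 p
        simp [smul_smul] } C (fun f => by
      have h1 : Summable (fun p => ‖f p • c p‖) := by
        refine Summable.of_nonneg_of_le (fun _ => norm_nonneg _) (fun p => ?_)
          ((summ f).mul_right C)
        rw [norm_smul]
        exact mul_le_mul_of_nonneg_left (hc p) (norm_nonneg _)
      refine (norm_tsum_le_tsum_norm h1).trans ?_
      rw [nrm, mul_comm, ← tsum_mul_right]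
      refine h1.tsum_le_tsum (fun p => ?_) ((summ f).mul_right C)
      rw [norm_smul]
      exact mul_le_mul_of_nonneg_left (hc p) (norm_nonneg _))

lemma mk_b (c : I → X) (C : ℝ) (hc : ∀ p, ‖c p‖ ≤ C) (q : I) : mk c C hc (b q) = c q := by
  change ∑' p, (b q : X) p • c p = c q
  rw [tsum_eq_single q]
  · simp [b_self]
  · intro p hp
    simp [b_apply, hp]

/-- `f` lives on the set `s` -/
def On (s : Set I) (f : X) : Prop := ∀ p, p ∉ s → f p = 0

lemma on_add {s : Set I} {f g : X} (hf : On s f) (hg : On s g) : On s (f + g) := by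
  intro p hp; simp [hf p hp, hg p hp]

lemma on_sub {s : Set I} {f g : X} (hf : On s f) (hg : On s g) : On s (f - g) := by
  intro p hp; simp [hf p hp, hg p hp]

lemma on_smul {s : Set I} {f : X} (c : ℂ) (hf : On s f) : On s (c • f) := by
  intro p hp; simp [hf p hp]

lemma on_sum {s : Set I} {ι : Type*} (t : Finset ι) (F : ι → X) (hF : ∀ i ∈ t, On s (F i)) :
    On s (∑ i ∈ t, F i) := by
  classical
  induction t using Finset.induction_on with
  | empty => intro p _; simp
  | insert a t ha ih =>
    rw [Finset.sum_insert ha]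
    exact on_add (hF a (by simp)) (ih (fun i hi => hF i (by simp [hi])))

lemma on_b {s : Set I} {p : I} (hp : p ∈ s) : On s (b p) := by
  intro q hq
  rw [b_apply, if_neg]
  rintro rfl; exact hq hp

lemma on_mono {s t : Set I} (h : s ⊆ t) {f : X} (hf : On s f) : On t f :=
  fun p hp => hf p (fun h' => hp (h h'))

/-- restriction to a set -/
noncomputable def P (s : Set I) : X →L[ℂ] X :=
  open Classical in
  mk (fun p => if p ∈ s then b p else 0) 1 (fun p => by
    split_ifs
    · rw [norm_b]
    · simp)

open Classical in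
lemma P_b (s : Set I) (p : I) : P s (b p) = if p ∈ s then b p else 0 := by
  unfold P
  rw [mk_b]

open Classical in
lemma P_apply (s : Set I) (f : X) (q : I) : P s f q = if q ∈ s then f q else 0 := by
  have h := clm_coord (P s) f q
  have h2 : HasSum (fun p => f p * P s (b p) q) (f q * P s (b q) q) := by
    apply hasSum_single
    intro p hp
    rw [P_b]
    split_ifs
    · rw [b_apply, if_neg (Ne.symm hp), mul_zero]
    · simp
  rw [h.unique h2, P_b]
  split_ifs
  · simp [b_self]
  · simp

lemma P_apply_mem {s : Set I} (f : X) {q : I} (hq : q ∈ s) : P s f q = f q := by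
  rw [P_apply, if_pos hq]

lemma P_apply_not {s : Set I} (f : X) {q : I} (hq : q ∉ s) : P s f q = 0 := by
  rw [P_apply, if_neg hq]

lemma on_P (s : Set I) (f : X) : On s (P s f) := fun _ hp => P_apply_not f hp

lemma P_add_compl (s : Set I) (f : X) : P s f + P sᶜ f = f := by
  ext q
  by_cases h : q ∈ s
  · simp [P_apply, h]
  · simp [P_apply, h]

lemma P_of_on {s : Set I} {f : X} (hf : On s f) : P s f = f := by
  ext q
  by_cases h : q ∈ s
  · simp [P_apply, h]
  · simp [P_apply, h, hf q h]

lemma P_of_disj {s t : Set I} (hst : Disjoint s t) {f : X} (hf : On s f) : P t f = 0 := by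
  ext q
  by_cases h : q ∈ t
  · have : q ∉ s := fun hs => Set.disjoint_left.mp hst hs h
    simp [P_apply, h, hf q this]
  · simp [P_apply, h]

lemma norm_P_add (s : Set I) (f : X) : ‖f‖ = ‖P s f‖ + ‖P sᶜ f‖ := by
  rw [nrm, nrm (P s f), nrm (P sᶜ f), ← (summ _).tsum_add (summ _)]
  congr 1; ext1 q
  by_cases h : q ∈ s
  · simp [P_apply, h]
  · simp [P_apply, h]

lemma norm_P_le (s : Set I) (f : X) : ‖P s f‖ ≤ ‖f‖ := by
  rw [norm_P_add s f]
  linarith [norm_nonneg (P sᶜ f)]

lemma norm_P_mono {s t : Set I} (h : s ⊆ t) (f : X) : ‖P s f‖ ≤ ‖P t f‖ := by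
  rw [nrm, nrm]
  refine (summ _).tsum_le_tsum (fun q => ?_) (summ _)
  by_cases h1 : q ∈ s
  · simp [P_apply, h1, h h1]
  · simp [P_apply, h1]

/-- bound for an operator by its columns -/
lemma clm_bound (A : X →L[ℂ] X) (f : X) (F : I → ℝ) (hF : Summable F)
    (h : ∀ p, ‖f p‖ * ‖A (b p)‖ ≤ F p) : ‖A f‖ ≤ ∑' p, F p := by
  rw [← (clm_hasSum A f).tsum_eq]
  have h0 : ∀ p, ‖f p • A (b p)‖ ≤ F p := fun p => by rw [norm_smul]; exact h p
  have h1 : Summable (fun p => ‖f p • A (b p)‖) :=
    Summable.of_nonneg_of_le (fun _ => norm_nonneg _) h0 hF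
  exact (norm_tsum_le_tsum_norm h1).trans (h1.tsum_le_tsum h0 hF)

lemma clm_on {s t : Set I} (A : X →L[ℂ] X) (hA : ∀ p ∈ s, On t (A (b p))) {f : X}
    (hf : On s f) : On t (A f) := by
  intro q hq
  have h := clm_coord A f q
  have h2 : (fun p => f p * A (b p) q) = fun _ => 0 := by
    ext1 p
    by_cases hp : p ∈ s
    · rw [hA p hp q hq, mul_zero]
    · rw [hf p hp, zero_mul]
  rw [h2] at h
  exact h.unique hasSum_zero

end Pool.Agent.V1190.PA
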