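import Pool.Agent.V1190.PA.Ell

set_option autoImplicit false

/-! The operator: frame vectors `e i n` on which it acts as a shift. -/

namespace Pool.Agent.V1190.PA

open scoped BigOperators
open Filter Topology

/-- norm scale of level `i` -/
noncomputable def G (i : ℕ) : ℝ := 2 ^ (5 ^ (i + 1))

/-- ramp length -/
def hh (i : ℕ) : ℕ := 4 * 5 ^ (i + 1)

/-- block length -/
def L (i : ℕ) : ℕ := hh i * hh i

/-- weights -/
noncomputable def W (i k : ℕ) : ℝ := 2 ^ (min (k % L i) (hh i))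

noncomputable def ep (i : ℕ) : ℝ := (1 / 2) ^ i

lemma hh_ge (i : ℕ) : 20 ≤ hh i := by
  unfold hh
  have : 1 ≤ 5 ^ i := Nat.one_le_pow _ _ (by norm_num)
  rw [pow_succ]; omega

lemma hh_gt (i : ℕ) : i < hh i := by
  unfold hh
  have : i < 5 ^ i := Nat.lt_pow_self (by norm_num)
  rw [pow_succ]; omega

lemma L_ge (i : ℕ) : 2 * hh i ≤ L i := by
  unfold L
  have := hh_ge i
  nlinarith

lemma L_pos (i : ℕ) : 0 < L i := by
  have := hh_ge i
  have := L_ge i
  omega

lemma G_pos (i : ℕ) : 0 < G i := by unfold G; positivity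

lemma G_succ (i : ℕ) : G (i + 1) = G i ^ 5 := by
  unfold G
  rw [← pow_mul, ← pow_succ]

lemma G_ge (i : ℕ) : 4 * (4 : ℝ) ^ i ≤ G i := by
  unfold G
  have h1 : 2 * (i + 1) ≤ 5 ^ (i + 1) := by
    induction i with
    | zero => norm_num
    | succ n ih => rw [pow_succ]; omega
  calc 4 * (4 : ℝ) ^ i = 2 ^ (2 * (i + 1)) := by
        rw [pow_mul, pow_succ]; norm_num; ring
    _ ≤ 2 ^ (5 ^ (i + 1)) := pow_le_pow_right₀ (by norm_num) h1

lemma G_ge4 (i : ℕ) : 4 ≤ G i := by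
  have := G_ge i
  have h2 : (1 : ℝ) ≤ 4 ^ i := one_le_pow₀ (by norm_num)
  linarith

lemma G_mono {i j : ℕ} (h : i ≤ j) : G i ≤ G j := by
  unfold G
  apply pow_le_pow_right₀ (by norm_num)
  exact Nat.pow_le_pow_right (by norm_num) (by omega)

lemma ep_pos (i : ℕ) : 0 < ep i := by unfold ep; positivity

lemma ep_le (i : ℕ) : ep i ≤ 1 := by
  unfold ep
  exact pow_le_one₀ (by norm_num) (by norm_num)

lemma W_ge (i k : ℕ) : 1 ≤ W i k := one_le_pow₀ (by norm_num)

lemma W_pos (i k : ℕ) : 0 < W i k := lt_of_lt_of_le one_pos (W_ge i k)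

lemma hG (i : ℕ) : (2 : ℝ) ^ (hh i) = G i ^ 4 := by
  unfold hh G
  rw [← pow_mul, mul_comm]

lemma W_le (i k : ℕ) : W i k ≤ G i ^ 4 := by
  rw [← hG]
  exact pow_le_pow_right₀ (by norm_num) (min_le_right _ _)

lemma W_top (i k : ℕ) (h : hh i ≤ k % L i) : W i k = G i ^ 4 := by
  unfold W
  rw [min_eq_right h, hG]

lemma W_zero (i j : ℕ) : W i (j * L i) = 1 := by
  unfold W
  simp

lemma W_succ_le (i k : ℕ) : W i (k + 1) ≤ 2 * W i k := by
  unfold W
  rw [← pow_succ']
  apply pow_le_pow_right₀ (by norm_num)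
  have hL := L_pos i
  rcases Nat.lt_or_ge (k % L i + 1) (L i) with h | h
  · have : (k + 1) % L i = k % L i + 1 := by
      rw [Nat.add_mod, Nat.mod_eq_of_lt (a := 1) (by omega), Nat.mod_eq_of_lt h]
    rw [this]; omega
  · have : (k + 1) % L i = 0 := by
      have h1 : k % L i < L i := Nat.mod_lt _ hL
      have h2 : k % L i + 1 = L i := by omega
      have h3 := Nat.mod_add_div k (L i)
      have : k + 1 = L i * (k / L i + 1) := by rw [Nat.mul_add]; omega
      rw [this, Nat.mul_mod_right]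
    rw [this]; simp

variable (a : ℕ → (I →₀ ℂ))

/-- frame vectors -/
noncomputable def e (i n : ℕ) : X :=
  (∑ p ∈ (a i).support, if _h : p.1 < i then a i p • e p.1 (p.2 + n % L i) else 0)
    + ((ep i * W i n : ℝ) : ℂ) • b (i, n)
termination_by i

/-- the orbit of the target vector of level `i` -/
noncomputable def uu (i r : ℕ) : X := ∑ p ∈ (a i).support, a i p • e a p.1 (p.2 + r)

structure Good : Prop where
  supp : ∀ i, ∀ p ∈ (a i).support, p.1 < i
  bd : ∀ i, ∑ p ∈ (a i).support, ‖a i p‖ ≤ 2 ^ i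

variable {a}

lemma e_eq (ha : Good a) (i n : ℕ) :
    e a i n = uu a i (n % L i) + ((ep i * W i n : ℝ) : ℂ) • b (i, n) := by
  rw [e]
  congr 1
  apply Finset.sum_congr rfl
  intro p hp
  rw [dif_pos (ha.supp i p hp)]

lemma e_norm (ha : Good a) (i : ℕ) : ∀ n, ‖e a i n‖ ≤ G (i + 1) := by
  induction i using Nat.strong_induction_on with
  | _ i ih =>
    intro n
    rw [e_eq ha]
    have h1 : ‖uu a i (n % L i)‖ ≤ 2 ^ i * G i := by
      unfold uu
      refine (norm_sum_le _ _).trans ?_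
      calc ∑ p ∈ (a i).support, ‖a i p • e a p.1 (p.2 + n % L i)‖
          ≤ ∑ p ∈ (a i).support, ‖a i p‖ * G i := by
            apply Finset.sum_le_sum
            intro p hp
            rw [norm_smul]
            apply mul_le_mul_of_nonneg_left _ (norm_nonneg _)
            exact (ih p.1 (ha.supp i p hp) _).trans (G_mono (ha.supp i p hp))
        _ = (∑ p ∈ (a i).support, ‖a i p‖) * G i := by rw [Finset.sum_mul]
        _ ≤ _ := mul_le_mul_of_nonneg_right (ha.bd i) (G_pos i).le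
    have h2 : ‖((ep i * W i n : ℝ) : ℂ) • b (i, n)‖ ≤ G i ^ 4 := by
      rw [norm_smul, norm_b, mul_one, Complex.norm_real, Real.norm_of_nonneg
        (mul_nonneg (ep_pos i).le (W_pos i n).le)]
      calc ep i * W i n ≤ 1 * G i ^ 4 :=
        mul_le_mul (ep_le i) (W_le i n) (W_pos i n).le (by norm_num)
        _ = _ := one_mul _
    have h3 : (2 : ℝ) ^ i ≤ G i := by
      have h4 := G_ge i
      have h5 : (2 : ℝ) ^ i ≤ 4 ^ i := pow_le_pow_left₀ (by norm_num) (by norm_num) i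
      have h6 : (1 : ℝ) ≤ 4 ^ i := one_le_pow₀ (by norm_num)
      linarith
    have h4 := G_ge4 i
    have h5 : 2 ^ i * G i ≤ G i ^ 4 := by
      calc 2 ^ i * G i ≤ G i * G i := mul_le_mul_of_nonneg_right h3 (G_pos i).le
        _ = G i ^ 2 := by ring
        _ ≤ G i ^ 4 := pow_le_pow_right₀ (by linarith) (by norm_num)
    calc ‖uu a i (n % L i) + ((ep i * W i n : ℝ) : ℂ) • b (i, n)‖
        ≤ 2 ^ i * G i + G i ^ 4 := (norm_add_le _ _).trans (add_le_add h1 h2)
      _ ≤ 2 * G i ^ 4 := by linarith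
      _ ≤ G i * G i ^ 4 := mul_le_mul_of_nonneg_right (by linarith) (by positivity)
      _ = G (i + 1) := by rw [G_succ]; ring

lemma uu_norm (ha : Good a) (i r : ℕ) : ‖uu a i r‖ ≤ 2 ^ i * G i := by
  unfold uu
  refine (norm_sum_le _ _).trans ?_
  calc ∑ p ∈ (a i).support, ‖a i p • e a p.1 (p.2 + r)‖
      ≤ ∑ p ∈ (a i).support, ‖a i p‖ * G i := by
        apply Finset.sum_le_sum
        intro p hp
        rw [norm_smul]
        apply mul_le_mul_of_nonneg_left _ (norm_nonneg _)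
        exact (e_norm ha p.1 _).trans (G_mono (ha.supp i p hp))
    _ = (∑ p ∈ (a i).support, ‖a i p‖) * G i := by rw [Finset.sum_mul]
    _ ≤ _ := mul_le_mul_of_nonneg_right (ha.bd i) (G_pos i).le

/-- levels below `i` -/
def V (i : ℕ) : Set I := {p | p.1 < i}

lemma e_on (ha : Good a) (i : ℕ) : ∀ n, On (V (i + 1)) (e a i n) := by
  induction i using Nat.strong_induction_on with
  | _ i ih =>
    intro n
    rw [e_eq ha]
    apply on_add
    · unfold uu
      apply on_sum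
      intro p hp
      apply on_smul
      have h1 := ha.supp i p hp
      refine on_mono ?_ (ih p.1 h1 _)
      intro q hq
      simp only [V, Set.mem_ofPred_eq] at hq ⊢
      omega
    · apply on_smul
      apply on_b
      simp [V]

lemma uu_on (ha : Good a) (i r : ℕ) : On (V i) (uu a i r) := by
  unfold uu
  apply on_sum
  intro p hp
  apply on_smul
  have h1 := ha.supp i p hp
  refine on_mono ?_ (e_on ha p.1 _)
  intro q hq
  simp only [V, Set.mem_ofPred_eq] at hq ⊢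
  omega

/-- the carry vector -/
noncomputable def Cr (a : ℕ → (I →₀ ℂ)) (m : ℕ) (p : I) : X :=
  (((ep p.1 * W p.1 p.2)⁻¹ : ℝ) : ℂ) •
    (uu a p.1 ((p.2 + m) % L p.1) - uu a p.1 (p.2 % L p.1 + m))

lemma Cr_on (ha : Good a) (m : ℕ) (p : I) : On (V p.1) (Cr a m p) :=
  on_smul _ (on_sub (uu_on ha _ _) (uu_on ha _ _))

lemma Cr_norm (ha : Good a) (m : ℕ) (p : I) : ‖Cr a m p‖ ≤ G p.1 ^ 2 / W p.1 p.2 := by
  unfold Cr
  rw [norm_smul, Complex.norm_real, norm_inv, Real.norm_of_nonneg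
    (mul_nonneg (ep_pos _).le (W_pos _ _).le)]
  have h1 : ‖uu a p.1 ((p.2 + m) % L p.1) - uu a p.1 (p.2 % L p.1 + m)‖
      ≤ 2 ^ p.1 * G p.1 + 2 ^ p.1 * G p.1 :=
    (norm_sub_le _ _).trans (add_le_add (uu_norm ha _ _) (uu_norm ha _ _))
  have hW := W_pos p.1 p.2
  have hG0 := G_pos p.1
  have h2 : (ep p.1)⁻¹ = 2 ^ p.1 := by
    unfold ep; rw [← inv_pow]; norm_num
  rw [mul_inv, h2]
  calc 2 ^ p.1 * (W p.1 p.2)⁻¹ * ‖uu a p.1 ((p.2 + m) % L p.1) - uu a p.1 (p.2 % L p.1 + m)‖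
      ≤ 2 ^ p.1 * (W p.1 p.2)⁻¹ * (2 ^ p.1 * G p.1 + 2 ^ p.1 * G p.1) :=
        mul_le_mul_of_nonneg_left h1 (by positivity)
    _ = (2 * 4 ^ p.1) * G p.1 / W p.1 p.2 := by
        have : (4 : ℝ) ^ p.1 = 2 ^ p.1 * 2 ^ p.1 := by rw [← mul_pow]; norm_num
        rw [this]; ring
    _ ≤ G p.1 * G p.1 / W p.1 p.2 := by
        apply div_le_div_of_nonneg_right _ hW.le
        apply mul_le_mul_of_nonneg_right _ hG0.le
        have := G_ge p.1
        have h4 : (0 : ℝ) ≤ 4 ^ p.1 := by positivity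
        linarith
    _ = _ := by rw [pow_two]

/-- no carry when the block end is not crossed -/
lemma Cr_zero (m : ℕ) (p : I) (h : p.2 % L p.1 + m < L p.1) : Cr a m p = 0 := by
  unfold Cr
  have : (p.2 + m) % L p.1 = p.2 % L p.1 + m := by
    rw [← Nat.mod_add_mod, Nat.mod_eq_of_lt h]
  rw [this, sub_self, smul_zero]

/-- columns of the operator -/
noncomputable def col (a : ℕ → (I →₀ ℂ)) (p : I) : X :=
  ((W p.1 (p.2 + 1) / W p.1 p.2 : ℝ) : ℂ) • b (p.1, p.2 + 1) + Cr a 1 p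

lemma col_norm (ha : Good a) (p : I) : ‖col a p‖ ≤ 3 := by
  unfold col
  have hW := W_pos p.1 p.2
  have h1 : ‖((W p.1 (p.2 + 1) / W p.1 p.2 : ℝ) : ℂ) • b (p.1, p.2 + 1)‖ ≤ 2 := by
    rw [norm_smul, norm_b, mul_one, Complex.norm_real, Real.norm_of_nonneg
      (div_nonneg (W_pos _ _).le hW.le), div_le_iff₀ hW]
    exact W_succ_le _ _
  have h2 : ‖Cr a 1 p‖ ≤ 1 := by
    rcases Nat.lt_or_ge (p.2 % L p.1 + 1) (L p.1) with h | h
    · rw [Cr_zero 1 p h]; simp
    · have h3 : hh p.1 ≤ p.2 % L p.1 := by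
        have := L_ge p.1
        have := hh_ge p.1
        omega
      refine (Cr_norm ha 1 p).trans ?_
      rw [W_top _ _ h3]
      have h4 := G_ge4 p.1
      rw [div_le_one (by positivity)]
      exact pow_le_pow_right₀ (by linarith) (by norm_num)
  calc _ ≤ _ := norm_add_le _ _
    _ ≤ 3 := by linarith

noncomputable def T (ha : Good a) : X →L[ℂ] X := mk (col a) 3 (col_norm ha)

lemma T_b (ha : Good a) (p : I) : T ha (b p) = col a p := mk_b _ _ _ _

lemma T_e (ha : Good a) (i : ℕ) : ∀ n, T ha (e a i n) = e a i (n + 1) := by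
  induction i using Nat.strong_induction_on with
  | _ i ih =>
    intro n
    have h1 : ∀ r, T ha (uu a i r) = uu a i (r + 1) := by
      intro r
      unfold uu
      rw [map_sum]
      apply Finset.sum_congr rfl
      intro p hp
      rw [map_smul, ih p.1 (ha.supp i p hp), add_assoc]
    rw [e_eq ha i n, map_add, map_smul, h1, T_b, e_eq ha i (n + 1)]
    unfold col Cr
    have h2 : ((ep i * W i n : ℝ) : ℂ) ≠ 0 := by
      have h3 := ep_pos i
      have h4 := W_pos i n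
      exact_mod_cast (mul_pos h3 h4).ne'
    have h5 : ((W i n : ℝ) : ℂ) ≠ 0 := by exact_mod_cast (W_pos i n).ne'
    simp only [smul_add, smul_smul]
    have h6 : ((ep i * W i n : ℝ) : ℂ) * (((ep i * W i n)⁻¹ : ℝ) : ℂ) = 1 := by
      rw [Complex.ofReal_inv, mul_inv_cancel₀ h2]
    have h7 : ((ep i * W i n : ℝ) : ℂ) * ((W i (n + 1) / W i n : ℝ) : ℂ)
        = ((ep i * W i (n + 1) : ℝ) : ℂ) := by
      push_cast
      field_simp
    rw [h6, h7, one_smul]
    abel

lemma T_uu (ha : Good a) (i r : ℕ) : T ha (uu a i r) = uu a i (r + 1) := by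
  unfold uu
  rw [map_sum]
  apply Finset.sum_congr rfl
  intro p hp
  rw [map_smul, T_e, add_assoc]

lemma Tn_e (ha : Good a) (i n m : ℕ) : (T ha ^ m) (e a i n) = e a i (n + m) := by
  induction m with
  | zero => simp
  | succ m ih =>
    rw [pow_succ', mul_apply_eq_comp, ih, T_e, add_assoc]

lemma Tn_uu (ha : Good a) (i r m : ℕ) : (T ha ^ m) (uu a i r) = uu a i (r + m) := by
  induction m with
  | zero => simp
  | succ m ih =>
    rw [pow_succ', mul_apply_eq_comp, ih, T_uu, add_assoc]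

lemma Tn_b (ha : Good a) (m : ℕ) (p : I) :
    (T ha ^ m) (b p) = ((W p.1 (p.2 + m) / W p.1 p.2 : ℝ) : ℂ) • b (p.1, p.2 + m)
      + Cr a m p := by
  obtain ⟨i, k⟩ := p
  simp only
  have h2 : ((ep i * W i k : ℝ) : ℂ) ≠ 0 := by
    have h3 := ep_pos i
    have h4 := W_pos i k
    exact_mod_cast (mul_pos h3 h4).ne'
  have h5 : ((W i k : ℝ) : ℂ) ≠ 0 := by exact_mod_cast (W_pos i k).ne'
  have h8 : ((ep i : ℝ) : ℂ) ≠ 0 := by exact_mod_cast (ep_pos i).ne'
  have h6 : (((ep i * W i k)⁻¹ : ℝ) : ℂ) * ((ep i * W i k : ℝ) : ℂ) = 1 := by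
    rw [Complex.ofReal_inv, inv_mul_cancel₀ h2]
  have h1 : b (i, k) = (((ep i * W i k)⁻¹ : ℝ) : ℂ) • (e a i k - uu a i (k % L i)) := by
    rw [e_eq ha i k, add_sub_cancel_left, smul_smul, h6, one_smul]
  rw [h1, map_smul, map_sub, Tn_e, Tn_uu, e_eq ha i (k + m)]
  unfold Cr
  simp only [smul_add, smul_sub, smul_smul]
  have h7 : (((ep i * W i k)⁻¹ : ℝ) : ℂ) * ((ep i * W i (k + m) : ℝ) : ℂ)
        = ((W i (k + m) / W i k : ℝ) : ℂ) := by
      push_cast
      field_simp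
  rw [h7]
  abel

end Pool.Agent.V1190.PA
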