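import Pool.Agent.V1190.PA.Frame

set_option autoImplicit false

/-! Only the zero vector is U-frequently recurrent. -/

namespace Pool.Agent.V1190.PA

open scoped BigOperators
open Filter Topology

lemma tendsto_norm_P (s : ℕ → Set I) (hs : ∀ p, ∀ᶠ n in atTop, p ∈ s n) (f : X) :
    Tendsto (fun n => ‖P (s n) f‖) atTop (𝓝 ‖f‖) := by
  have h1 : ∀ n, ‖P (s n) f‖ = ∑' p, ‖P (s n) f p‖ := fun n => nrm _
  simp only [h1]
  rw [nrm f]
  apply tendsto_tsum_of_dominated_convergence (bound := fun p => ‖f p‖) (summ f)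
  · intro p
    apply tendsto_const_nhds.congr'
    filter_upwards [hs p] with n hn
    rw [P_apply_mem f hn]
  · refine Eventually.of_forall (fun n p => ?_)
    rw [norm_norm, P_apply]
    split_ifs
    · exact le_rfl
    · simp

lemma map_neg_apply' (s : Set I) (f : X) (q : I) : (-(P s f) : X) q = -(P s f q) := rfl

lemma sub_apply' (f g : X) (q : I) : (f - g : X) q = f q - g q := rfl

variable {a : ℕ → (I →₀ ℂ)}

lemma Tn_on (ha : Good a) (i n : ℕ) {w : X} (hw : On (V i) w) : On (V i) ((T ha ^ n) w) := by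
  apply clm_on (T ha ^ n) _ hw
  intro p hp
  rw [Tn_b]
  apply on_add
  · apply on_smul
    apply on_b
    simpa [V] using hp
  · refine on_mono ?_ (Cr_on ha n p)
    intro q hq
    simp only [V, Set.mem_ofPred_eq] at hq hp ⊢
    omega

/-- an operator bound on the part of levels `≥ i` -/
lemma PTn (ha : Good a) (i n : ℕ) (p : I) (hp : p ∈ (V i)ᶜ) :
    P (V i) ((T ha ^ n) (b p)) = P (V i) (Cr a n p) := by
  rw [Tn_b, map_add, map_smul, P_b, if_neg, smul_zero, zero_add]
  simpa [V] using hp

lemma drift (ha : Good a) (i : ℕ) : ∀ w : X, On (V i) w →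
    ∀ᶠ n in atTop, ‖w‖ / G i ≤ ‖(T ha ^ n) w - w‖ := by
  induction i with
  | zero =>
    intro w hw
    have : w = 0 := by
      ext p
      rw [hw p (by simp [V])]
      simp
    subst this
    simp
  | succ i ih =>
    intro w hw
    set y := P (V i) w with hy
    set z := P (V i)ᶜ w with hz
    have hwyz : y + z = w := P_add_compl _ _
    have hnw : ‖w‖ = ‖y‖ + ‖z‖ := norm_P_add _ _
    have hyon : On (V i) y := on_P _ _
    have hzon : On (V i)ᶜ z := on_P _ _
    have h1 := ih y hyon
    have h2 : ∀ᶠ n in atTop, ‖z‖ / 2 ≤ ‖P {p : I | p.2 < n} z‖ := by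
      have h3 := tendsto_norm_P (fun n => {p : I | p.2 < n}) (fun p => by
        filter_upwards [eventually_gt_atTop p.2] with n hn
        exact hn) z
      rcases eq_or_ne z 0 with h0 | h0
      · simp [h0]
      · have h4 : ‖z‖ / 2 < ‖z‖ := half_lt_self (norm_pos_iff.mpr h0)
        filter_upwards [h3.eventually (lt_mem_nhds h4)] with n hn
        exact hn.le
    filter_upwards [h1, h2] with n hn1 hn2
    have hD := norm_P_add (V i) ((T ha ^ n) w - w)
    have hlow : P (V i) ((T ha ^ n) w - w) = ((T ha ^ n) y - y) + P (V i) ((T ha ^ n) z) := by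
      rw [map_sub]
      conv_lhs => rw [← hwyz]
      rw [map_add, map_add, map_add, P_of_on (Tn_on ha i n hyon), P_of_on hyon,
        P_of_disj (disjoint_compl_left) hzon]
      abel
    have hPz : ‖P (V i) ((T ha ^ n) z)‖ ≤ G i ^ 2 * ‖z‖ := by
      have h5 := clm_bound ((P (V i)).comp (T ha ^ n)) z (fun p => ‖z p‖ * G i ^ 2)
        ((summ z).mul_right _) (fun p => by
          by_cases hp : p ∈ (V i)ᶜ
          · by_cases hp2 : p ∈ V (i + 1)
            · apply mul_le_mul_of_nonneg_left _ (norm_nonneg _)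
              rw [ContinuousLinearMap.comp_apply, PTn ha i n p hp]
              refine (norm_P_le _ _).trans ((Cr_norm ha n p).trans ?_)
              have hpi : p.1 = i := by
                simp only [V, Set.mem_compl_iff, Set.mem_ofPred_eq] at hp hp2
                omega
              rw [hpi]
              exact div_le_self (by positivity) (W_ge _ _)
            · have : z p = 0 := by
                rw [hz, P_apply_mem _ hp, hw p hp2]
              simp [this]
          · have : z p = 0 := hzon p hp
            simp [this])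
      rw [tsum_mul_right, ← nrm, mul_comm] at h5
      exact h5
    have hup : ‖z‖ / 2 ≤ ‖P (V i)ᶜ ((T ha ^ n) w - w)‖ := by
      refine hn2.trans ?_
      have h6 : P {p : I | p.2 < n} (P (V i)ᶜ ((T ha ^ n) w - w))
          = - P {p : I | p.2 < n} z := by
        have h7 : On {q : I | ¬ (i ≤ q.1 ∧ q.2 < n)} ((T ha ^ n) w) := by
          apply clm_on (T ha ^ n) _ hw
          intro p hp
          rw [Tn_b]
          apply on_add
          · apply on_smul
            apply on_b
            simp
          · refine on_mono ?_ (Cr_on ha n p)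
            intro q hq
            simp only [V, Set.mem_ofPred_eq] at hq hp ⊢
            omega
        ext q
        by_cases hq : q.2 < n
        · by_cases hq2 : i ≤ q.1
          · have h8 : (T ha ^ n) w q = 0 := h7 q (by simp [hq, hq2])
            have hqV : q ∈ (V i)ᶜ := by simpa [V] using hq2
            have hq' : q ∈ {p : I | p.2 < n} := hq
            rw [P_apply_mem _ hq', P_apply_mem _ hqV, map_neg_apply' _ _ q,
              P_apply_mem _ hq', hz, P_apply_mem _ hqV, sub_apply' _ _ q, h8, zero_sub]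
          · have hqV : q ∉ (V i)ᶜ := by simpa [V] using hq2
            have hq' : q ∈ {p : I | p.2 < n} := hq
            rw [P_apply_mem _ hq', P_apply_not _ hqV, map_neg_apply' _ _ q,
              P_apply_mem _ hq', hz, P_apply_not _ hqV, neg_zero]
        · have hq' : q ∉ {p : I | p.2 < n} := hq
          rw [P_apply_not _ hq', map_neg_apply' _ _ q, P_apply_not _ hq', neg_zero]
      rw [← norm_neg, ← h6]
      exact norm_P_le _ _
    have hD1 : ‖y‖ / G i - G i ^ 2 * ‖z‖ ≤ ‖P (V i) ((T ha ^ n) w - w)‖ := by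
      rw [hlow]
      have h9 : ‖(T ha ^ n) y - y‖ ≤ ‖((T ha ^ n) y - y) + P (V i) ((T ha ^ n) z)‖
          + ‖P (V i) ((T ha ^ n) z)‖ := by
        have := norm_sub_le (((T ha ^ n) y - y) + P (V i) ((T ha ^ n) z))
          (P (V i) ((T ha ^ n) z))
        rwa [add_sub_cancel_right] at this
      linarith
    have hG4 := G_ge4 i
    have hGp := G_pos i
    set D := ‖(T ha ^ n) w - w‖ with hDdef
    have hP1 := norm_nonneg (P (V i) ((T ha ^ n) w - w))
    have hP2 := norm_nonneg (P (V i)ᶜ ((T ha ^ n) w - w))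
    have hz2 : ‖z‖ ≤ 2 * D := by linarith
    have hy2 : ‖y‖ ≤ G i * (D + G i ^ 2 * (2 * D)) := by
      have h10 : ‖y‖ / G i ≤ D + G i ^ 2 * (2 * D) := by
        have h11 : G i ^ 2 * ‖z‖ ≤ G i ^ 2 * (2 * D) :=
          mul_le_mul_of_nonneg_left hz2 (by positivity)
        linarith
      rw [div_le_iff₀ hGp] at h10
      linarith
    have hD0 : 0 ≤ D := norm_nonneg _
    rw [G_succ, div_le_iff₀ (by positivity), hnw]
    have h12 : G i * (1 + G i ^ 2 * 2) + 2 ≤ G i ^ 5 := by
      have h13 : (16 : ℝ) ≤ G i ^ 2 := by nlinarith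
      have h14 : G i ^ 5 = G i ^ 3 * G i ^ 2 := by ring
      have h15 : G i ^ 3 * 16 ≤ G i ^ 3 * G i ^ 2 :=
        mul_le_mul_of_nonneg_left h13 (by positivity)
      have h16 : G i * 16 ≤ G i ^ 3 := by
        have : G i ^ 3 = G i * G i ^ 2 := by ring
        rw [this]; exact mul_le_mul_of_nonneg_left h13 hGp.le
      nlinarith
    calc ‖y‖ + ‖z‖ ≤ G i * (D + G i ^ 2 * (2 * D)) + 2 * D := add_le_add hy2 hz2
      _ = D * (G i * (1 + G i ^ 2 * 2) + 2) := by ring
      _ ≤ D * G i ^ 5 := mul_le_mul_of_nonneg_left h12 hD0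

end Pool.Agent.V1190.PA
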