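import Pool.Agent.V1190.PA.Neg

set_option autoImplicit false

/-! Averaging over the return set. -/

namespace Pool.Agent.V1190.PA

open scoped BigOperators
open Filter Topology

lemma count_bad (l h k N : ℕ) (hl : 0 < l) :
    ((Finset.Icc 1 N).filter (fun n => (k + n) % l < h)).card ≤ (N / l + 2) * h := by
  have h1 : ((Finset.Icc 1 N).filter (fun n => (k + n) % l < h)).card
      ≤ (Finset.range (N / l + 2) ×ˢ Finset.range h).card := by
    apply Finset.card_le_card_of_injOn (fun n => ((k + n) / l - k / l, (k + n) % l))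
    · intro n hn
      simp only [Finset.coe_filter, Finset.mem_Icc, Set.mem_ofPred_eq] at hn
      simp only [Finset.coe_product, Set.mem_prod, Finset.coe_range, Set.mem_Iio]
      refine ⟨?_, hn.2⟩
      have h2 : (k + n) / l ≤ k / l + n / l + 1 := by
        rw [Nat.add_div hl]
        split_ifs <;> omega
      have h3 : n / l ≤ N / l := Nat.div_le_div_right hn.1.2
      generalize (k + n) / l = A at *
      generalize k / l = B at *
      generalize N / l = C at *
      generalize n / l = D at *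
      omega
    · intro n hn m hm hnm
      simp only [Prod.mk.injEq] at hnm
      have h2 : k / l ≤ (k + n) / l := Nat.div_le_div_right (by omega)
      have h3 : k / l ≤ (k + m) / l := Nat.div_le_div_right (by omega)
      have h4 : (k + n) / l = (k + m) / l := by omega
      have h5 := Nat.div_add_mod (k + n) l
      have h6 := Nat.div_add_mod (k + m) l
      rw [h4, hnm.2] at h5
      omega
  rw [Finset.card_product, Finset.card_range, Finset.card_range] at h1
  exact h1

/-- the averaged weight -/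
lemma avg_W (i k N : ℕ) (δ : ℝ) (hδ : 10 ≤ δ * hh i) (hN : L i ≤ 2 * N)
    (R : Finset ℕ) (hR : R ⊆ Finset.Icc 1 N) (hc : δ * N ≤ R.card) :
    (R.card : ℝ) / 2 * G i ^ 4 ≤ ∑ n ∈ R, W i (k + n) := by
  classical
  set B := R.filter (fun n => (k + n) % L i < hh i) with hB
  set A := R.filter (fun n => ¬ ((k + n) % L i < hh i)) with hA
  have hAB : B.card + A.card = R.card := Finset.card_filter_add_card_filter_not _
  have hBc : (B.card : ℝ) ≤ R.card / 2 := by
    have h1 : B.card ≤ (N / L i + 2) * hh i := by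
      refine le_trans (Finset.card_le_card ?_) (count_bad (L i) (hh i) k N (L_pos i))
      intro n hn
      rw [hB, Finset.mem_filter] at hn
      rw [Finset.mem_filter]
      exact ⟨hR hn.1, hn.2⟩
    have h2 : (B.card : ℝ) ≤ ((N / L i : ℕ) + 2 : ℝ) * hh i := by exact_mod_cast h1
    have h3 : ((N / L i : ℕ) : ℝ) ≤ (N : ℝ) / (L i : ℝ) := Nat.cast_div_le
    have hhp : (0 : ℝ) < hh i := by
      have := hh_ge i
      have : 0 < hh i := by omega
      exact_mod_cast this
    have hL : (L i : ℝ) = hh i * hh i := by unfold L; push_cast; ring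
    have hN' : (hh i : ℝ) * hh i ≤ 2 * N := by rw [← hL]; exact_mod_cast hN
    have h4 : ((N : ℝ) / (L i : ℝ)) * hh i = N / hh i := by
      rw [hL]; field_simp
    have h5 : 2 * (hh i : ℝ) ≤ 4 * (N / hh i) := by
      rw [show 4 * ((N : ℝ) / hh i) = (4 * N) / hh i by ring, le_div_iff₀ hhp]
      nlinarith
    have h6 : (B.card : ℝ) ≤ 5 * (N / hh i) := by
      calc (B.card : ℝ) ≤ ((N / L i : ℕ) + 2 : ℝ) * hh i := h2
        _ ≤ ((N : ℝ) / (L i : ℝ) + 2) * hh i :=
          mul_le_mul_of_nonneg_right (by linarith) hhp.le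
        _ = (N : ℝ) / (L i : ℝ) * hh i + 2 * hh i := by ring
        _ ≤ _ := by rw [h4]; linarith
    have h7 : 5 * ((N : ℝ) / hh i) ≤ δ * N / 2 := by
      rw [show 5 * ((N : ℝ) / hh i) = (5 * N) / hh i by ring, div_le_iff₀ hhp]
      have hN0 : (0 : ℝ) ≤ N := Nat.cast_nonneg _
      nlinarith
    linarith
  have hAc : (R.card : ℝ) / 2 ≤ A.card := by
    have : (B.card : ℝ) + A.card = R.card := by exact_mod_cast hAB
    linarith
  calc (R.card : ℝ) / 2 * G i ^ 4 ≤ A.card * G i ^ 4 :=
        mul_le_mul_of_nonneg_right hAc (pow_pos (G_pos i) 4).le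
    _ = ∑ n ∈ A, G i ^ 4 := by simp
    _ = ∑ n ∈ A, W i (k + n) := by
        apply Finset.sum_congr rfl
        intro n hn
        rw [hA, Finset.mem_filter, not_lt] at hn
        rw [W_top _ _ hn.2]
    _ ≤ ∑ n ∈ R, W i (k + n) :=
        Finset.sum_le_sum_of_subset_of_nonneg (Finset.filter_subset _ _)
          (fun n _ _ => (W_pos _ _).le)

variable {a : ℕ → (I →₀ ℂ)}

lemma W_add_le (i k n : ℕ) : W i (k + n) ≤ 2 ^ n * W i k := by
  induction n with
  | zero => simp
  | succ n ih =>
    calc W i (k + n + 1) ≤ 2 * W i (k + n) := W_succ_le _ _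
      _ ≤ 2 * (2 ^ n * W i k) := by linarith
      _ = _ := by ring

/-- the diagonal part of the power -/
noncomputable def Dg (n : ℕ) : X →L[ℂ] X :=
  mk (fun p : I => ((W p.1 (p.2 + n) / W p.1 p.2 : ℝ) : ℂ) • b (p.1, p.2 + n)) (2 ^ n)
    (fun p => by
      rw [norm_smul, norm_b, mul_one, Complex.norm_real, Real.norm_of_nonneg
        (div_nonneg (W_pos _ _).le (W_pos _ _).le), div_le_iff₀ (W_pos _ _)]
      exact W_add_le _ _ _)

lemma Dg_b (n : ℕ) (p : I) :
    Dg n (b p) = ((W p.1 (p.2 + n) / W p.1 p.2 : ℝ) : ℂ) • b (p.1, p.2 + n) := by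
  unfold Dg; rw [mk_b]

lemma Dg_apply (n : ℕ) (f : X) (p : I) :
    Dg n f (p.1, p.2 + n) = f p * ((W p.1 (p.2 + n) / W p.1 p.2 : ℝ) : ℂ) := by
  have h := clm_coord (Dg n) f (p.1, p.2 + n)
  have h2 : HasSum (fun q => f q * Dg n (b q) (p.1, p.2 + n))
      (f p * Dg n (b p) (p.1, p.2 + n)) := by
    apply hasSum_single
    intro q hq
    rw [Dg_b]
    have : (b (q.1, q.2 + n) : X) (p.1, p.2 + n) = 0 := by
      rw [b_apply, if_neg]
      intro h
      simp only [Prod.mk.injEq, Nat.add_right_cancel_iff] at h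
      exact hq (Prod.ext h.1.symm h.2.symm)
    simp [this]
  rw [h.unique h2, Dg_b]
  simp [b_self]

lemma Dg_norm (n : ℕ) (f : X) :
    Summable (fun p : I => ‖f p‖ * (W p.1 (p.2 + n) / W p.1 p.2)) ∧
    ∑' p : I, ‖f p‖ * (W p.1 (p.2 + n) / W p.1 p.2) ≤ ‖Dg n f‖ := by
  have hinj : Function.Injective (fun p : I => ((p.1, p.2 + n) : I)) := by
    intro p q h
    simp only [Prod.mk.injEq, Nat.add_right_cancel_iff] at h
    exact Prod.ext h.1 h.2
  have h1 : (fun p : I => ‖f p‖ * (W p.1 (p.2 + n) / W p.1 p.2))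
      = (fun q => ‖Dg n f q‖) ∘ (fun p : I => ((p.1, p.2 + n) : I)) := by
    ext1 p
    simp only [Function.comp]
    rw [Dg_apply, norm_mul, Complex.norm_real, Real.norm_of_nonneg
        (div_nonneg (W_pos _ _).le (W_pos _ _).le)]
  constructor
  · rw [h1]
    exact (summ (Dg n f)).comp_injective hinj
  · rw [nrm (Dg n f), h1]
    exact tsum_comp_le_tsum_of_inj (summ (Dg n f)) (fun _ => norm_nonneg _) hinj

lemma diff_b (ha : Good a) (n : ℕ) (p : I) : ((T ha ^ n) - Dg n) (b p) = Cr a n p := by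
  rw [sub_apply, Tn_b, Dg_b, add_sub_cancel_left]

lemma Dg_on (n i : ℕ) {f : X} (hf : On (V i)ᶜ f) : On (V i)ᶜ (Dg n f) := by
  apply clm_on (Dg n) _ hf
  intro p hp
  rw [Dg_b]
  apply on_smul
  apply on_b
  simpa [V] using hp

/-- weighted mass -/
noncomputable def mass (x : X) (p : I) : ℝ := ‖x p‖ / W p.1 p.2 * G p.1 ^ 4

lemma mass_nonneg (x : X) (p : I) : 0 ≤ mass x p :=
  mul_nonneg (div_nonneg (norm_nonneg _) (W_pos _ _).le) (pow_pos (G_pos _) 4).le

open Classical in
/-- the mass bound at one scale -/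
lemma mass_J (ha : Good a) (x : X) (ε δ : ℝ) (hε : 0 < ε) (hδ : 0 < δ) (i1 N : ℕ)
    (hi1 : ‖P (V i1)ᶜ x‖ ≤ ε) (hh1 : ∀ i, i1 ≤ i → 10 ≤ δ * hh i)
    (R : Finset ℕ) (hR : R ⊆ Finset.Icc 1 N) (hN : 0 < N) (hc : δ * N ≤ R.card)
    (hx : ∀ n ∈ R, ‖(T ha ^ n) x - x‖ < ε) :
    Summable (fun p : I => if i1 ≤ p.1 ∧ L p.1 ≤ 2 * N then mass x p else 0) ∧
    ∑' p : I, (if i1 ≤ p.1 ∧ L p.1 ≤ 2 * N then mass x p else 0) ≤ 9 * ε := by
  set g : I → ℝ := fun p => if i1 ≤ p.1 ∧ L p.1 ≤ 2 * N then mass x p else 0 with hg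
  have hLi : ∀ i, i ≤ L i := by
    intro i
    have := L_ge i
    have := hh_gt i
    omega
  have hgs : Summable g := by
    refine Summable.of_nonneg_of_le (fun p => ?_) (fun p => ?_)
      ((summ x).mul_right (G (2 * N) ^ 4))
    · simp only [hg]; split_ifs
      · exact mass_nonneg _ _
      · exact le_rfl
    · simp only [hg]; split_ifs with hp
      · unfold mass
        apply mul_le_mul (div_le_self (norm_nonneg _) (W_ge _ _)) _
          (pow_pos (G_pos _) 4).le (norm_nonneg _)
        apply pow_le_pow_left₀ (G_pos _).le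
        exact G_mono ((hLi _).trans hp.2)
      · exact mul_nonneg (norm_nonneg _) (pow_pos (G_pos _) 4).le
  refine ⟨hgs, ?_⟩
  set S := ∑' p, g p with hS
  have hg0 : ∀ p, 0 ≤ g p := fun p => by
    simp only [hg]; split_ifs
    · exact mass_nonneg _ _
    · exact le_rfl
  have hS0 : 0 ≤ S := tsum_nonneg hg0
  set x' := P (V i1)ᶜ x with hx'
  -- the estimate at a single time
  have key : ∀ n ∈ R, ∑' p : I, ‖x' p‖ * (W p.1 (p.2 + n) / W p.1 p.2)
      ≤ 2 * ε + (ε / 4 + S / 4) := by
    intro n hn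
    have hnN : n ≤ N := (Finset.mem_Icc.mp (hR hn)).2
    have hZ : ‖((T ha ^ n) - Dg n) x'‖ ≤ ε / 4 + S / 4 := by
      have h1 := clm_bound ((T ha ^ n) - Dg n) x' (fun p => ‖x' p‖ * (1 / 4) + g p * (1 / 4))
        (((summ x').mul_right _).add (hgs.mul_right _)) (fun p => by
          by_cases hp : p ∈ (V i1)ᶜ
          · have hp' : i1 ≤ p.1 := by simpa [V] using hp
            rw [diff_b]
            have hxp : x' p = x p := P_apply_mem _ hp
            have hG4 := G_ge4 p.1
            have hG16 : (4 : ℝ) ≤ G p.1 ^ 2 := by nlinarith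
            have hGp := G_pos p.1
            have hWp := W_pos p.1 p.2
            rw [hxp]
            rcases Nat.lt_or_ge (2 * N) (L p.1) with hL | hL
            · have h2 : ‖Cr a n p‖ ≤ 1 / 4 := by
                rcases Nat.lt_or_ge (p.2 % L p.1 + n) (L p.1) with h3 | h3
                · rw [Cr_zero n p h3]; simp
                · have h4 : hh p.1 ≤ p.2 % L p.1 := by
                    have := L_ge p.1
                    omega
                  refine (Cr_norm ha n p).trans ?_
                  rw [W_top _ _ h4, div_le_div_iff₀ (by positivity) (by norm_num)]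
                  nlinarith
              have h5 : ‖x p‖ * ‖Cr a n p‖ ≤ ‖x p‖ * (1 / 4) :=
                mul_le_mul_of_nonneg_left h2 (norm_nonneg _)
              have h6 := hg0 p
              linarith
            · have h2 : g p = mass x p := by simp only [hg]; rw [if_pos ⟨hp', hL⟩]
              have h5 : ‖x p‖ * ‖Cr a n p‖ ≤ ‖x p‖ * (G p.1 ^ 2 / W p.1 p.2) :=
                mul_le_mul_of_nonneg_left (Cr_norm ha n p) (norm_nonneg _)
              have h6 : ‖x p‖ * (G p.1 ^ 2 / W p.1 p.2) ≤ mass x p * (1 / 4) := by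
                unfold mass
                have h7 : 0 ≤ ‖x p‖ / W p.1 p.2 := div_nonneg (norm_nonneg _) hWp.le
                have h8 : ‖x p‖ * (G p.1 ^ 2 / W p.1 p.2)
                    = ‖x p‖ / W p.1 p.2 * G p.1 ^ 2 := by ring
                rw [h8, mul_assoc]
                apply mul_le_mul_of_nonneg_left _ h7
                nlinarith
              have h9 : 0 ≤ ‖x p‖ * (1 / 4) := by positivity
              rw [h2]
              linarith
          · have h0 : x' p = 0 := P_apply_not _ hp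
            have := hg0 p
            rw [h0, norm_zero, zero_mul, zero_mul, zero_add]
            linarith)
      rw [((summ x').mul_right _).tsum_add (hgs.mul_right _), tsum_mul_right,
        tsum_mul_right, ← nrm] at h1
      linarith
    have hy : ‖P (V i1)ᶜ ((T ha ^ n) x)‖ ≤ 2 * ε := by
      have h1 : (T ha ^ n) x = ((T ha ^ n) x - x) + x := by abel
      rw [h1, map_add]
      have h2 := norm_P_le (V i1)ᶜ ((T ha ^ n) x - x)
      have h3 := hx n hn
      have h4 := norm_add_le (P (V i1)ᶜ ((T ha ^ n) x - x)) (P (V i1)ᶜ x)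
      linarith
    have hy2 : P (V i1)ᶜ ((T ha ^ n) x) = P (V i1)ᶜ ((T ha ^ n) x') := by
      have h1 : (T ha ^ n) x = (T ha ^ n) (P (V i1) x) + (T ha ^ n) x' := by
        rw [← map_add, hx', P_add_compl]
      rw [h1, map_add, P_of_disj disjoint_compl_right (Tn_on ha i1 n (on_P _ _)), zero_add]
    have hDg : Dg n x' = P (V i1)ᶜ ((T ha ^ n) x) - P (V i1)ᶜ (((T ha ^ n) - Dg n) x') := by
      rw [hy2, ← map_sub, sub_apply, sub_sub_cancel,
        P_of_on (Dg_on n i1 (on_P _ _))]
    have hfin := (Dg_norm n x').2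
    have h1 := norm_sub_le (P (V i1)ᶜ ((T ha ^ n) x)) (P (V i1)ᶜ (((T ha ^ n) - Dg n) x'))
    rw [← hDg] at h1
    have h2 := norm_P_le (V i1)ᶜ (((T ha ^ n) - Dg n) x')
    linarith
  -- averaging
  have hsum := Finset.sum_le_sum key
  rw [Finset.sum_const, nsmul_eq_mul] at hsum
  rw [← Summable.tsum_finsetSum (fun n _ => (Dg_norm n x').1)] at hsum
  have hRpos : (0 : ℝ) < R.card := by
    have : (0 : ℝ) < N := by exact_mod_cast hN
    nlinarith
  have hlow : (R.card : ℝ) / 2 * S
      ≤ ∑' p : I, ∑ n ∈ R, ‖x' p‖ * (W p.1 (p.2 + n) / W p.1 p.2) := by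
    rw [hS, ← tsum_mul_left]
    refine (hgs.mul_left _).tsum_le_tsum (fun p => ?_)
      (summable_sum (fun n _ => (Dg_norm n x').1))
    by_cases hp : i1 ≤ p.1 ∧ L p.1 ≤ 2 * N
    · have h2 : g p = mass x p := by simp only [hg]; rw [if_pos hp]
      have hpm : p ∈ (V i1)ᶜ := by simpa [V] using hp.1
      have hxp : x' p = x p := P_apply_mem _ hpm
      rw [h2, hxp]
      have h3 := avg_W p.1 p.2 N δ (hh1 p.1 hp.1) hp.2 R hR hc
      have hWp := W_pos p.1 p.2
      calc (R.card : ℝ) / 2 * mass x p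
          = ‖x p‖ / W p.1 p.2 * ((R.card : ℝ) / 2 * G p.1 ^ 4) := by unfold mass; ring
        _ ≤ ‖x p‖ / W p.1 p.2 * ∑ n ∈ R, W p.1 (p.2 + n) :=
            mul_le_mul_of_nonneg_left h3 (div_nonneg (norm_nonneg _) hWp.le)
        _ = ∑ n ∈ R, ‖x p‖ * (W p.1 (p.2 + n) / W p.1 p.2) := by
            rw [Finset.mul_sum]
            apply Finset.sum_congr rfl
            intro n _
            ring
    · have h2 : g p = 0 := by simp only [hg]; rw [if_neg hp]
      rw [h2, mul_zero]
      apply Finset.sum_nonneg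
      intro n _
      exact mul_nonneg (norm_nonneg _) (div_nonneg (W_pos _ _).le (W_pos _ _).le)
  have h3 : (R.card : ℝ) / 2 * S ≤ R.card * (2 * ε + (ε / 4 + S / 4)) := hlow.trans hsum
  have h4 : S / 2 ≤ 2 * ε + (ε / 4 + S / 4) := by
    have h5 : (R.card : ℝ) * (S / 2) ≤ R.card * (2 * ε + (ε / 4 + S / 4)) := by linarith
    exact le_of_mul_le_mul_left h5 hRpos
  linarith

end Pool.Agent.V1190.PA
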