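import Pool.Agent.V1190.PA.Neg2

set_option autoImplicit false

/-! Only the zero vector is U-frequently recurrent: conclusion. -/

namespace Pool.Agent.V1190.PA

open scoped BigOperators
open Filter Topology

open Classical in
lemma freq_of_dens (p : ℕ → Prop) (δ : ℝ) (hδ : 0 < δ)
    (h : ∃ᶠ N : ℕ in atTop, δ * N ≤ ((Finset.Icc 1 N).filter p).card) :
    ∃ᶠ n in atTop, p n := by
  intro hcon
  rw [eventually_atTop] at hcon
  obtain ⟨M, hM⟩ := hcon
  have h1 : ∀ N : ℕ, ((Finset.Icc 1 N).filter p).card ≤ M := by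
    intro N
    calc ((Finset.Icc 1 N).filter p).card ≤ (Finset.range M).card := by
          apply Finset.card_le_card
          intro n hn
          rw [Finset.mem_filter] at hn
          rw [Finset.mem_range]
          by_contra hc
          exact hM n (by omega) hn.2
      _ = M := Finset.card_range M
  obtain ⟨N0, hN0⟩ := exists_nat_gt (M / δ)
  obtain ⟨N, hN, hN2⟩ := (frequently_atTop.mp h) N0
  have h2 : (M : ℝ) / δ < N := lt_of_lt_of_le hN0 (by exact_mod_cast hN)
  rw [div_lt_iff₀ hδ] at h2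
  have h3 : (((Finset.Icc 1 N).filter p).card : ℝ) ≤ M := by exact_mod_cast h1 N
  linarith

variable {a : ℕ → (I →₀ ℂ)}

open Classical in
theorem ufr_zero (ha : Good a) (x : X)
    (h : ∀ ε : ℝ, 0 < ε → ∃ δ : ℝ, 0 < δ ∧ ∃ᶠ N : ℕ in atTop,
      δ * N ≤ ((Finset.Icc 1 N).filter (fun n => ‖(T ha ^ n) x - x‖ < ε)).card) : x = 0 := by
  have hVmem : ∀ p : I, ∀ᶠ i in atTop, p ∈ V i := by
    intro p
    filter_upwards [eventually_gt_atTop p.1] with i hi
    exact hi
  have hlim := tendsto_norm_P V hVmem x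
  suffices hs : ∀ ε : ℝ, 0 < ε → ‖x‖ ≤ 9 * ε by
    by_contra hx
    have h1 : 0 < ‖x‖ := norm_pos_iff.mpr hx
    have h2 := hs (‖x‖ / 18) (by positivity)
    linarith
  intro ε hε
  obtain ⟨δ, hδ, hfreq⟩ := h ε hε
  have htail : ∀ᶠ i in atTop, ‖P (V i)ᶜ x‖ ≤ ε := by
    have h1 : Tendsto (fun i => ‖x‖ - ‖P (V i) x‖) atTop (𝓝 (‖x‖ - ‖x‖)) :=
      tendsto_const_nhds.sub hlim
    rw [sub_self] at h1
    filter_upwards [h1.eventually (gt_mem_nhds hε)] with i hi
    have := norm_P_add (V i) x
    linarith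
  have hhev : ∀ᶠ i : ℕ in atTop, ∀ j, i ≤ j → 10 ≤ δ * hh j := by
    obtain ⟨K, hK⟩ := exists_nat_gt (10 / δ)
    filter_upwards [eventually_ge_atTop K] with i hi j hj
    rw [div_lt_iff₀ hδ] at hK
    have h1 : (K : ℝ) ≤ hh j := by
      have := hh_gt j
      have : K ≤ hh j := by omega
      exact_mod_cast this
    nlinarith
  obtain ⟨i1, hi1, hh1⟩ := (htail.and hhev).exists
  set g : I → ℝ := fun p => if i1 ≤ p.1 then mass x p else 0 with hg
  have hg0 : ∀ p, 0 ≤ g p := fun p => by
    simp only [hg]; split_ifs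
    · exact mass_nonneg _ _
    · exact le_rfl
  have hF : ∀ F : Finset I, ∑ p ∈ F, g p ≤ 9 * ε := by
    intro F
    obtain ⟨N, hN, hN2⟩ := (frequently_atTop.mp hfreq) (F.sup (fun p => L p.1) + 1)
    have hmem : ∀ p ∈ F, L p.1 ≤ 2 * N := by
      intro p hp
      have h1 : L p.1 ≤ F.sup (fun p => L p.1) := Finset.le_sup (f := fun p : I => L p.1) hp
      omega
    have h2 := mass_J ha x ε δ hε hδ i1 N hi1 hh1 _ (Finset.filter_subset _ _) (by omega) hN2
      (fun n hn => (Finset.mem_filter.mp hn).2)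
    calc ∑ p ∈ F, g p = ∑ p ∈ F, (if i1 ≤ p.1 ∧ L p.1 ≤ 2 * N then mass x p else 0) := by
          apply Finset.sum_congr rfl
          intro p hp
          simp only [hg]
          by_cases hpi : i1 ≤ p.1
          · rw [if_pos hpi, if_pos ⟨hpi, hmem p hp⟩]
          · rw [if_neg hpi, if_neg (fun h => hpi h.1)]
      _ ≤ ∑' p : I, (if i1 ≤ p.1 ∧ L p.1 ≤ 2 * N then mass x p else 0) := by
          apply h2.1.sum_le_tsum
          intro p _
          split_ifs
          · exact mass_nonneg _ _
          · exact le_rfl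
      _ ≤ 9 * ε := h2.2
  have hgs : Summable g := summable_of_sum_le hg0 hF
  have hgt : ∑' p, g p ≤ 9 * ε := hgs.tsum_le_of_sum_le hF
  -- for every level i0 ≥ i1
  have hfin : ∀ i0, i1 ≤ i0 → ‖P (V i0) x‖ ≤ 9 * ε := by
    intro i0 hi0
    set w := P (V i0) x with hw
    have hGp := G_pos i0
    have hdr := drift ha i0 w (on_P _ _)
    have hall : ∀ ε' : ℝ, 0 < ε' → ‖w‖ / G i0 ≤ ε' + 9 * ε / G i0 := by
      intro ε' hε'
      obtain ⟨δ', hδ', hfreq'⟩ := h ε' hε'
      obtain ⟨n, hn1, hn2⟩ := ((freq_of_dens _ δ' hδ' hfreq').and_eventually hdr).exists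
      refine hn2.trans ?_
      have h1 : (T ha ^ n) w - w = P (V i0) ((T ha ^ n) x - x)
          - P (V i0) ((T ha ^ n) (P (V i0)ᶜ x)) := by
        have h2 : (T ha ^ n) x = (T ha ^ n) w + (T ha ^ n) (P (V i0)ᶜ x) := by
          rw [← map_add, hw, P_add_compl]
        rw [map_sub, h2, map_add, P_of_on (Tn_on ha i0 n (on_P _ _)), ← hw]
        abel
      rw [h1]
      have h3 : ‖P (V i0) ((T ha ^ n) (P (V i0)ᶜ x))‖ ≤ 9 * ε / G i0 := by
        have h4 := clm_bound ((P (V i0)).comp (T ha ^ n)) (P (V i0)ᶜ x)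
          (fun p => g p * (1 / G i0)) (hgs.mul_right _) (fun p => by
            by_cases hp : p ∈ (V i0)ᶜ
            · have hp' : i0 ≤ p.1 := by simpa [V] using hp
              rw [ContinuousLinearMap.comp_apply, PTn ha i0 n p hp, P_apply_mem _ hp]
              have hgp : g p = mass x p := by simp only [hg]; rw [if_pos (by omega)]
              rw [hgp]
              have hWp := W_pos p.1 p.2
              have hGG := G_pos p.1
              have hG4 := G_ge4 p.1
              calc ‖x p‖ * ‖P (V i0) (Cr a n p)‖ ≤ ‖x p‖ * (G p.1 ^ 2 / W p.1 p.2) :=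
                    mul_le_mul_of_nonneg_left ((norm_P_le _ _).trans (Cr_norm ha n p))
                      (norm_nonneg _)
                _ = ‖x p‖ / W p.1 p.2 * G p.1 ^ 2 := by ring
                _ ≤ ‖x p‖ / W p.1 p.2 * (G p.1 ^ 4 * (1 / G i0)) := by
                    apply mul_le_mul_of_nonneg_left _ (div_nonneg (norm_nonneg _) hWp.le)
                    rw [mul_one_div, le_div_iff₀ hGp]
                    have h5 := G_mono hp'
                    calc G p.1 ^ 2 * G i0 ≤ G p.1 ^ 2 * G p.1 :=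
                          mul_le_mul_of_nonneg_left h5 (by positivity)
                      _ = G p.1 ^ 3 := by ring
                      _ ≤ G p.1 ^ 4 := pow_le_pow_right₀ (by linarith) (by norm_num)
                _ = mass x p * (1 / G i0) := by unfold mass; ring
            · rw [P_apply_not _ hp, norm_zero, zero_mul]
              exact mul_nonneg (hg0 p) (by positivity))
        rw [ContinuousLinearMap.comp_apply, tsum_mul_right] at h4
        refine h4.trans ?_
        rw [mul_one_div]
        exact div_le_div_of_nonneg_right hgt hGp.le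
      have h5 := norm_sub_le (P (V i0) ((T ha ^ n) x - x))
        (P (V i0) ((T ha ^ n) (P (V i0)ᶜ x)))
      have h6 := norm_P_le (V i0) ((T ha ^ n) x - x)
      linarith
    have h7 : ‖w‖ / G i0 ≤ 9 * ε / G i0 := by
      apply le_of_forall_pos_le_add
      intro ε' hε'
      have := hall ε' hε'
      linarith
    rwa [div_le_div_iff_of_pos_right hGp] at h7
  exact le_of_tendsto hlim (by
    filter_upwards [eventually_ge_atTop i1] with i hi
    exact hfin i hi)

end Pool.Agent.V1190.PA
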