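import Pool.Agent.V1190.PA.Neg3

set_option autoImplicit false

/-! Choice of the target vectors and property A. -/

namespace Pool.Agent.V1190.PA

open scoped BigOperators
open Filter Topology

/-- rational complex numbers -/
noncomputable def qc : (ℚ × ℚ) →+ ℂ where
  toFun r := (r.1 : ℂ) + (r.2 : ℂ) * Complex.I
  map_zero' := by simp
  map_add' := fun r s => by push_cast [Prod.fst_add, Prod.snd_add]; ring

lemma qc_dense : DenseRange qc := by
  intro z
  rw [Metric.mem_closure_iff]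
  intro η hη
  obtain ⟨x, hx1, hx2⟩ := exists_rat_btwn (show z.re - η / 2 < z.re by linarith)
  obtain ⟨y, hy1, hy2⟩ := exists_rat_btwn (show z.im - η / 2 < z.im by linarith)
  refine ⟨qc (x, y), ⟨_, rfl⟩, ?_⟩
  rw [dist_eq_norm]
  have h1 : z - qc (x, y) = ((z.re - x : ℝ) : ℂ) + ((z.im - y : ℝ) : ℂ) * Complex.I := by
    apply Complex.ext
    · simp [qc]
    · simp [qc]
  rw [h1]
  refine lt_of_le_of_lt (norm_add_le _ _) ?_
  rw [norm_mul, Complex.norm_I, mul_one, Complex.norm_real, Complex.norm_real,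
    Real.norm_of_nonneg (by linarith), Real.norm_of_nonneg (by linarith)]
  linarith

lemma exists_enum : ∃ f : ℕ → (I →₀ (ℚ × ℚ)) × ℕ, Function.Surjective f :=
  exists_surjective_nat _

noncomputable def en : ℕ → (I →₀ (ℚ × ℚ)) × ℕ := Classical.choose exists_enum

lemma en_surj : Function.Surjective en := Classical.choose_spec exists_enum

noncomputable def raw (q : I →₀ (ℚ × ℚ)) : I →₀ ℂ := q.mapRange qc (map_zero qc)

open Classical in
noncomputable def aa (i : ℕ) : I →₀ ℂ :=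
  if (∀ p ∈ (raw (en i).1).support, p.1 < i) ∧
    ∑ p ∈ (raw (en i).1).support, ‖raw (en i).1 p‖ ≤ 2 ^ i then raw (en i).1 else 0

lemma aa_good : Good aa := by
  constructor
  · intro i p hp
    unfold aa at hp
    split_ifs at hp with h
    · exact h.1 p hp
    · simp at hp
  · intro i
    unfold aa
    split_ifs with h
    · exact h.2
    · simp

lemma aa_freq (q : I →₀ (ℚ × ℚ)) (N : ℕ) : ∃ i, N ≤ i ∧ aa i = raw q := by
  obtain ⟨M1, hM1⟩ : ∃ M1 : ℕ, ∀ p ∈ (raw q).support, p.1 < M1 :=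
    ⟨(raw q).support.sup (fun p => p.1) + 1, fun p hp =>
      Nat.lt_succ_of_le (Finset.le_sup (f := fun p : I => p.1) hp)⟩
  obtain ⟨M2, hM2⟩ := pow_unbounded_of_one_lt (∑ p ∈ (raw q).support, ‖raw q p‖)
    (show (1 : ℝ) < 2 by norm_num)
  have hinf : Set.Infinite {i | (en i).1 = q} := by
    choose g hg using fun k => en_surj (q, k)
    apply Set.infinite_of_injective_forall_mem (f := g)
    · intro k l hkl
      have h1 := hg k
      rw [hkl, hg l] at h1
      simpa using h1.symm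
    · intro k
      simp [hg k]
  obtain ⟨i, hi, hi2⟩ := hinf.exists_gt (N + M1 + M2)
  refine ⟨i, by omega, ?_⟩
  simp only [Set.mem_ofPred_eq] at hi
  unfold aa
  rw [hi, if_pos]
  constructor
  · intro p hp
    have := hM1 p hp
    omega
  · refine hM2.le.trans ?_
    exact pow_le_pow_right₀ (by norm_num) (by omega)

/-- rational combinations of the frame vectors -/
noncomputable def Ph : (I →₀ (ℚ × ℚ)) →+ X :=
  Finsupp.liftAddHom (fun p : I =>
    ((AddMonoidHom.flip (smulAddHom ℂ X)) (e aa p.1 p.2)).comp qc)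

lemma Ph_single (p : I) (r : ℚ × ℚ) : Ph (Finsupp.single p r) = qc r • e aa p.1 p.2 := by
  unfold Ph
  rw [Finsupp.liftAddHom_apply_single]
  rfl

lemma Ph_eq (q : I →₀ (ℚ × ℚ)) :
    Ph q = ∑ p ∈ (raw q).support, raw q p • e aa p.1 p.2 := by
  have h1 : Ph q = q.sum (fun p r => qc r • e aa p.1 p.2) := by
    unfold Ph
    rw [Finsupp.liftAddHom_apply]
    rfl
  rw [h1]
  have h2 : (raw q).sum (fun p z => z • e aa p.1 p.2) = q.sum (fun p r => qc r • e aa p.1 p.2) := by
    unfold raw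
    rw [Finsupp.sum_mapRange_index]
    intro p
    simp
  rw [← h2]
  rfl

lemma target (q : I →₀ (ℚ × ℚ)) (N : ℕ) : ∃ i, N ≤ i ∧ uu aa i 0 = Ph q := by
  obtain ⟨i, hi, h⟩ := aa_freq q N
  refine ⟨i, hi, ?_⟩
  unfold uu
  rw [h, Ph_eq]
  simp

lemma Ph_dense : DenseRange Ph := by
  set H := (AddMonoidHom.range Ph).topologicalClosure with hH
  have hHc : IsClosed (H : Set X) := AddSubgroup.isClosed_topologicalClosure _
  have h1 : ∀ (p : I) (z : ℂ), z • e aa p.1 p.2 ∈ H := by
    intro p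
    have hcl : IsClosed {z : ℂ | z • e aa p.1 p.2 ∈ (H : Set X)} :=
      hHc.preimage (continuous_id.smul continuous_const)
    have hsub : Set.range qc ⊆ {z : ℂ | z • e aa p.1 p.2 ∈ (H : Set X)} := by
      rintro _ ⟨r, rfl⟩
      change qc r • e aa p.1 p.2 ∈ (H : Set X)
      apply subset_closure
      exact ⟨Finsupp.single p r, Ph_single p r⟩
    intro z
    have h2 := closure_minimal hsub hcl
    exact h2 (qc_dense z)
  have h2 : ∀ (p : I) (z : ℂ), z • b p ∈ H := by
    rintro ⟨i, n⟩ z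
    have h3 : ((ep i * W i n : ℝ) : ℂ) ≠ 0 := by
      have h4 := ep_pos i
      have h5 := W_pos i n
      exact_mod_cast (mul_pos h4 h5).ne'
    have h6 : z • b (i, n) = (z * ((ep i * W i n : ℝ) : ℂ)⁻¹) • e aa i n
        - ∑ p ∈ (aa i).support, (z * ((ep i * W i n : ℝ) : ℂ)⁻¹ * aa i p) •
            e aa p.1 (p.2 + n % L i) := by
      have h7 : ∑ p ∈ (aa i).support, (z * ((ep i * W i n : ℝ) : ℂ)⁻¹ * aa i p) •
            e aa p.1 (p.2 + n % L i)
            = (z * ((ep i * W i n : ℝ) : ℂ)⁻¹) • uu aa i (n % L i) := by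
        unfold uu
        rw [Finset.smul_sum]
        apply Finset.sum_congr rfl
        intro p _
        rw [smul_smul]
      rw [h7, ← smul_sub, e_eq aa_good i n, add_sub_cancel_left, smul_smul, mul_assoc,
        inv_mul_cancel₀ h3, mul_one]
    rw [h6]
    apply AddSubgroup.sub_mem
    · exact h1 (i, n) _
    · apply AddSubgroup.sum_mem
      intro p _
      exact h1 (p.1, p.2 + n % L i) _
  intro x
  have h3 : x ∈ (H : Set X) := by
    refine hHc.mem_of_tendsto (hasSum_b x) (Eventually.of_forall (fun s => ?_))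
    exact AddSubgroup.sum_mem _ (fun p _ => h2 p _)
  exact h3

/-- the approximating orbit -/
lemma approx (U : Set X) (hU : IsOpen U) (hne : U.Nonempty) :
    ∃ (y : X) (l : ℕ), 0 < l ∧ ∀ j, (T aa_good ^ (j * l)) y ∈ U := by
  obtain ⟨x, hx⟩ := hne
  obtain ⟨η, hη, hball⟩ := Metric.isOpen_iff.mp hU x hx
  obtain ⟨q, hq⟩ : ∃ q, ‖Ph q - x‖ < η / 2 := by
    obtain ⟨q, hq⟩ := Metric.denseRange_iff.mp Ph_dense x (η / 2) (by positivity)
    refine ⟨q, ?_⟩
    rwa [dist_comm, dist_eq_norm] at hq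
  obtain ⟨N, hN⟩ := exists_pow_lt_of_lt_one (show 0 < η / 2 by positivity)
    (show (1 / 2 : ℝ) < 1 by norm_num)
  obtain ⟨i, hi, hiq⟩ := target q N
  refine ⟨e aa i 0, L i, L_pos i, fun j => ?_⟩
  rw [Tn_e, zero_add, e_eq aa_good, Nat.mul_mod_left, hiq, W_zero, mul_one]
  apply hball
  rw [Metric.mem_ball, dist_eq_norm]
  have h1 : ‖((ep i : ℝ) : ℂ) • b (i, j * L i)‖ < η / 2 := by
    rw [norm_smul, norm_b, mul_one, Complex.norm_real, Real.norm_of_nonneg (ep_pos i).le]
    refine lt_of_le_of_lt ?_ hN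
    unfold ep
    exact pow_le_pow_of_le_one (by norm_num) (by norm_num) hi
  calc ‖Ph q + ((ep i : ℝ) : ℂ) • b (i, j * L i) - x‖
      = ‖(Ph q - x) + ((ep i : ℝ) : ℂ) • b (i, j * L i)‖ := by congr 1; abel
    _ ≤ _ := norm_add_le _ _
    _ < η := by linarith

end Pool.Agent.V1190.PA
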